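import Pool.Agent.H58.K9G1.Core

/-!
# JOB G1, part 5: labels and the final statement
-/

namespace Pool.Agent.H58.K9G1

open Pool.Agent.H23.K9 Finset

/-! ### labels -/

theorem lab_zero (N : ℕ) (u v : Fin 9) : lab N u v 0 = u := by
  unfold lab; rw [if_pos rfl]

theorem lab_last {N : ℕ} (hN : 1 ≤ N) (u v : Fin 9) : lab N u v N = v := by
  unfold lab; rw [if_neg (by omega), if_pos rfl]

/-- Interior labels have the form `9 + e N + k'` with `e = 9 min + max`, `0 < k' < N`. -/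
theorem lab_cases (N : ℕ) (u v : Fin 9) (k : ℕ) (hk : k ≤ N) :
    (k = 0 ∧ lab N u v k = u) ∨ (k = N ∧ lab N u v k = v) ∨
    (u < v ∧ 0 < k ∧ k < N ∧ lab N u v k = 9 + (9 * u + v) * N + k) ∨
    (¬ u < v ∧ 0 < k ∧ k < N ∧ lab N u v k = 9 + (9 * v + u) * N + (N - k)) := by
  unfold lab
  by_cases h0 : k = 0
  · left; rw [if_pos h0]; exact ⟨h0, rfl⟩
  · by_cases h1 : k = N
    · right; left; rw [if_neg h0, if_pos h1]; exact ⟨h1, rfl⟩
    · right; right
      rw [if_neg h0, if_neg h1]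
      by_cases h2 : u < v
      · left; rw [if_pos h2]; exact ⟨h2, by omega, by omega, rfl⟩
      · right; rw [if_neg h2]; exact ⟨h2, by omega, by omega, rfl⟩

theorem lab_reverse {N : ℕ} (hN : 1 ≤ N) {u v : Fin 9} (huv : u ≠ v) {k : ℕ} (hk : k ≤ N) :
    lab N v u k = lab N u v (N - k) := by
  unfold lab
  by_cases h0 : k = 0
  · subst h0
    have e1 : ¬ (N - 0 = 0) := by omega
    have e2 : N - 0 = N := by omega
    rw [if_pos rfl, if_neg e1, if_pos e2]
  · by_cases h1 : k = N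
    · have e1 : N - k = 0 := by omega
      rw [if_neg h0, if_pos h1, if_pos e1]
    · have e1 : ¬ (N - k = 0) := by omega
      have e2 : ¬ (N - k = N) := by omega
      rw [if_neg h0, if_neg h1, if_neg e1, if_neg e2]
      rcases lt_or_gt_of_ne huv with h2 | h2
      · rw [if_neg (not_lt.2 h2.le), if_pos h2]
      · rw [if_pos h2, if_neg (not_lt.2 h2.le)]
        omega

/-- Two blocks of labels are disjoint. -/
theorem block_inj {N x y k l : ℕ} (hk : 0 < k) (hkN : k < N) (hl : 0 < l) (hlN : l < N)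
    (h : 9 + x * N + k = 9 + y * N + l) : x = y ∧ k = l := by
  have hxy : x = y := by
    rcases lt_trichotomy x y with h1 | h1 | h1
    · exfalso
      have : (x + 1) * N ≤ y * N := Nat.mul_le_mul_right N h1
      rw [add_mul] at this
      omega
    · exact h1
    · exfalso
      have : (y + 1) * N ≤ x * N := Nat.mul_le_mul_right N h1
      rw [add_mul] at this
      omega
  subst hxy
  exact ⟨rfl, by omega⟩

theorem lab_ne {N : ℕ} {a b c d : Fin 9} (h : D4 a b c d) {k l : ℕ} (hk : k ≤ N) (hl : l ≤ N) :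
    lab N a b k ≠ lab N c d l := by
  obtain ⟨hab, hac, had, hbc, hbd, hcd⟩ := h
  intro he
  have := a.2; have := b.2; have := c.2; have := d.2
  rw [Ne, Fin.ext_iff] at hab hac had hbc hbd hcd
  rcases lab_cases N a b k hk with ⟨_, h1⟩ | ⟨_, h1⟩ | ⟨o1, p1, q1, h1⟩ | ⟨o1, p1, q1, h1⟩ <;>
  rcases lab_cases N c d l hl with ⟨_, h2⟩ | ⟨_, h2⟩ | ⟨o2, p2, q2, h2⟩ | ⟨o2, p2, q2, h2⟩ <;>
  rw [h1, h2] at he
  all_goals first
    | omega
    | (have := (block_inj (by omega) (by omega) (by omega) (by omega) he).1; omega)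

theorem lab_succ_ne {N : ℕ} {a b : Fin 9} (hab : a ≠ b) {k : ℕ} (hk : k < N) :
    lab N a b k ≠ lab N a b (k + 1) := by
  intro he
  have := a.2; have := b.2
  rw [Ne, Fin.ext_iff] at hab
  rcases lab_cases N a b k hk.le with ⟨_, h1⟩ | ⟨_, h1⟩ | ⟨o1, p1, q1, h1⟩ | ⟨o1, p1, q1, h1⟩ <;>
  rcases lab_cases N a b (k + 1) hk with
    ⟨_, h2⟩ | ⟨_, h2⟩ | ⟨o2, p2, q2, h2⟩ | ⟨o2, p2, q2, h2⟩ <;>
  rw [h1, h2] at he <;> omega

theorem lab_lt {N : ℕ} (hN : 1 ≤ N) (a b : Fin 9) {k : ℕ} (hk : k ≤ N) :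
    lab N a b k < labBound N := by
  have := a.2; have := b.2
  unfold labBound
  rcases lab_cases N a b k hk with ⟨_, h1⟩ | ⟨_, h1⟩ | ⟨o1, p1, q1, h1⟩ | ⟨o1, p1, q1, h1⟩ <;>
  rw [h1]
  · omega
  · omega
  · have h3 : (9 * (a : ℕ) + b) * N ≤ 81 * N := Nat.mul_le_mul_right N (by omega)
    omega
  · have h3 : (9 * (b : ℕ) + a) * N ≤ 81 * N := Nat.mul_le_mul_right N (by omega)
    omega

/-! ### paths -/

/-- The polygonal path of the edge `uv`. -/
def P (Y : ℕ → E3) (N : ℕ) (u v : Fin 9) : ℕ → E3 := fun k => Y (lab N u v k)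

theorem P_zero (Y : ℕ → E3) (N : ℕ) (u v : Fin 9) : P Y N u v 0 = Y u := by
  unfold P; rw [lab_zero]

theorem P_last (Y : ℕ → E3) {N : ℕ} (hN : 1 ≤ N) (u v : Fin 9) : P Y N u v N = Y v := by
  unfold P; rw [lab_last hN]

theorem P_reverse (Y : ℕ → E3) {N : ℕ} (hN : 1 ≤ N) {u v : Fin 9} (huv : u ≠ v) :
    ∀ k ≤ N, P Y N v u k = P Y N u v (N - k) := by
  intro k hk
  unfold P
  rw [lab_reverse hN huv hk]

theorem genP {Y : ℕ → E3} {N : ℕ} (hN : 1 ≤ N) (hY : Generic Y (labBound N))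
    {a b c d : Fin 9} (h : D4 a b c d) : GenP (P Y N a b) (P Y N c d) N := by
  intro k hk l hl
  have A := lab_lt hN a b hk.le
  have A' := lab_lt hN a b (k := k + 1) hk
  have C := lab_lt hN c d hl.le
  have C' := lab_lt hN c d (k := l + 1) hl
  have n1 := lab_succ_ne h.1 hk
  have n2 := lab_succ_ne h.2.2.2.2.2 hl
  have m1 := lab_ne h hk.le hl.le
  have m2 := lab_ne h (k := k) (l := l + 1) hk.le hl
  have m3 := lab_ne h (k := k + 1) (l := l) hk hl.le
  have m4 := lab_ne h (k := k + 1) (l := l + 1) hk hl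
  exact {
    ab := hY.x_ne _ A _ A' n1
    cd := hY.x_ne _ C _ C' n2
    ac := hY.x_ne _ A _ C m1
    ad := hY.x_ne _ A _ C' m2
    bc := hY.x_ne _ A' _ C m3
    bd := hY.x_ne _ A' _ C' m4
    abc := hY.planar _ A _ A' _ C n1 m1 m3
    abd := hY.planar _ A _ A' _ C' n1 m2 m4
    cda := hY.planar _ C _ C' _ A n2 m1.symm m2.symm
    cdb := hY.planar _ C _ C' _ A' n2 m3.symm m4.symm
    abcd := hY.space _ A _ A' _ C _ C' n1 m1 m2 m3 m4 n2 }

theorem crossMat_of_D4 (Y : ℕ → E3) (N : ℕ) {a b c d : Fin 9} (h : D4 a b c d) :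
    crossMat Y N a b c d = SS crossSign (P Y N a b) (P Y N c d) N := by
  unfold crossMat
  rw [if_pos h]
  rfl

theorem crossMat_of_not (Y : ℕ → E3) (N : ℕ) {a b c d : Fin 9} (h : ¬ D4 a b c d) :
    crossMat Y N a b c d = 0 := by
  unfold crossMat
  rw [if_neg h]

theorem D4.swap {n : ℕ} {a b c d : Fin n} (h : D4 a b c d) : D4 b a c d :=
  ⟨h.1.symm, h.2.2.2.1, h.2.2.2.2.1, h.2.1, h.2.2.1, h.2.2.2.2.2⟩

theorem D4.swap' {n : ℕ} {a b c d : Fin n} (h : D4 a b c d) : D4 a b d c :=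
  ⟨h.1, h.2.2.1, h.2.1, h.2.2.2.2.1, h.2.2.2.1, h.2.2.2.2.2.symm⟩

theorem D4.symm' {n : ℕ} {a b c d : Fin n} (h : D4 a b c d) : D4 c d a b :=
  ⟨h.2.2.2.2.2, h.2.1.symm, h.2.2.2.1.symm, h.2.2.1.symm, h.2.2.2.2.1.symm, h.1⟩

theorem crossMat_anti (Y : ℕ → E3) {N : ℕ} (hN : 1 ≤ N) (a b c d : Fin 9) :
    crossMat Y N b a c d = - crossMat Y N a b c d := by
  by_cases h : D4 a b c d
  · rw [crossMat_of_D4 Y N h, crossMat_of_D4 Y N h.swap]
    exact SS_cross_reverse _ _ _ N (P_reverse Y hN h.1)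
  · rw [crossMat_of_not Y N h, crossMat_of_not Y N (fun h' => h h'.swap)]
    rfl

theorem crossMat_symm (Y : ℕ → E3) (N : ℕ) (a b c d : Fin 9) :
    crossMat Y N c d a b = crossMat Y N a b c d := by
  by_cases h : D4 a b c d
  · rw [crossMat_of_D4 Y N h, crossMat_of_D4 Y N h.symm']
    exact SS_cross_symm _ _ _
  · rw [crossMat_of_not Y N h, crossMat_of_not Y N (fun h' => h h'.symm')]

/-- The integer `(crossMat + E) / 2`. -/
noncomputable def EO (Y : ℕ → E3) (N : ℕ) (a b c d : Fin 9) : ℤ :=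
  SS (fun a b c d => eta a b c d * ov a b c d) (P Y N a b) (P Y N c d) N

/-- The number of pairs of fine edges with `ov = 1`, mod 2. -/
noncomputable def OO (Y : ℕ → E3) (N : ℕ) (a b c d : Fin 9) : ZMod 2 :=
  ((SS ov (P Y N a b) (P Y N c d) N : ℤ) : ZMod 2)

/-- Coarse `h`. -/
noncomputable def hc (Y : ℕ → E3) (N : ℕ) (a b c : Fin 9) : ℤ := hh (P Y N a b) N (Y c)

/-- Coarse right hand side of the four-point identity. -/
noncomputable def RC (Y : ℕ → E3) (N : ℕ) (a b c d : Fin 9) : ℤ :=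
  hc Y N a b d - hc Y N a b c - hc Y N c d b + hc Y N c d a
    + bet (Y b) (Y d) - bet (Y b) (Y c) - bet (Y a) (Y d) + bet (Y a) (Y c)

theorem SS_eta_P {Y : ℕ → E3} {N : ℕ} (hN : 1 ≤ N) (hY : Generic Y (labBound N))
    {a b c d : Fin 9} (h : D4 a b c d) :
    SS eta (P Y N a b) (P Y N c d) N = RC Y N a b c d := by
  rw [SS_eta (genP hN hY h)]
  unfold RR RC hc
  simp only [P_zero, P_last Y hN]

theorem crossMat_eq {Y : ℕ → E3} {N : ℕ} (hN : 1 ≤ N) (hY : Generic Y (labBound N))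
    {a b c d : Fin 9} (h : D4 a b c d) :
    crossMat Y N a b c d = 2 * EO Y N a b c d - RC Y N a b c d := by
  rw [crossMat_of_D4 Y N h, SS_cross (genP hN hY h), SS_eta_P hN hY h]
  rfl

/-- Six distinct vertices. -/
def D6 {n : ℕ} (a b c d e f : Fin n) : Prop :=
  a ≠ b ∧ a ≠ c ∧ a ≠ d ∧ a ≠ e ∧ a ≠ f ∧ b ≠ c ∧ b ≠ d ∧ b ≠ e ∧ b ≠ f ∧ c ≠ d ∧ c ≠ e ∧ c ≠ f ∧
    d ≠ e ∧ d ≠ f ∧ e ≠ f

theorem triSum_crossMat {Y : ℕ → E3} {N : ℕ} (hN : 1 ≤ N) (hY : Generic Y (labBound N))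
    {a b c d e f : Fin 9} (h : D6 a b c d e f) :
    triSum (crossMat Y N) a b c d e f = 2 * tri (EO Y N) a b c d e f := by
  obtain ⟨ab, ac, ad, ae, af, bc, bd, be, bf, cd, ce, cf, de, df, ef⟩ := h
  unfold triSum tri
  rw [crossMat_eq hN hY (a := a) (b := b) (c := d) (d := e) ⟨ab, ad, ae, bd, be, de⟩,
    crossMat_eq hN hY (a := a) (b := b) (c := e) (d := f) ⟨ab, ae, af, be, bf, ef⟩,
    crossMat_eq hN hY (a := a) (b := b) (c := f) (d := d) ⟨ab, af, ad, bf, bd, df.symm⟩,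
    crossMat_eq hN hY (a := b) (b := c) (c := d) (d := e) ⟨bc, bd, be, cd, ce, de⟩,
    crossMat_eq hN hY (a := b) (b := c) (c := e) (d := f) ⟨bc, be, bf, ce, cf, ef⟩,
    crossMat_eq hN hY (a := b) (b := c) (c := f) (d := d) ⟨bc, bf, bd, cf, cd, df.symm⟩,
    crossMat_eq hN hY (a := c) (b := a) (c := d) (d := e) ⟨ac.symm, cd, ce, ad, ae, de⟩,
    crossMat_eq hN hY (a := c) (b := a) (c := e) (d := f) ⟨ac.symm, ce, cf, ae, af, ef⟩,
    crossMat_eq hN hY (a := c) (b := a) (c := f) (d := d) ⟨ac.symm, cf, cd, af, ad, df.symm⟩]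
  unfold RC
  ring

theorem half_triSum {Y : ℕ → E3} {N : ℕ} (hN : 1 ≤ N) (hY : Generic Y (labBound N))
    {a b c d e f : Fin 9} (h : D6 a b c d e f) :
    triSum (crossMat Y N) a b c d e f / 2 = tri (EO Y N) a b c d e f := by
  rw [triSum_crossMat hN hY h]
  exact Int.mul_ediv_cancel_left _ (by norm_num)

theorem EO_cast (Y : ℕ → E3) (N : ℕ) (a b c d : Fin 9) :
    ((EO Y N a b c d : ℤ) : ZMod 2) = OO Y N a b c d :=
  SS_eta_mul_ov _ _ _

theorem tri_cast (Y : ℕ → E3) (N : ℕ) (a b c d e f : Fin 9) :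
    ((tri (EO Y N) a b c d e f : ℤ) : ZMod 2) = tri (OO Y N) a b c d e f := by
  unfold tri
  push_cast
  simp only [EO_cast]

theorem OO_swap {Y : ℕ → E3} {N : ℕ} (hN : 1 ≤ N) (hY : Generic Y (labBound N))
    {a b c d : Fin 9} (h : D4 a b c d) : OO Y N b a c d = OO Y N a b c d := by
  unfold OO
  rw [SS_ov_reverse (genP hN hY h) (P_reverse Y hN h.1)]

theorem OO_swap' {Y : ℕ → E3} {N : ℕ} (hN : 1 ≤ N) (hY : Generic Y (labBound N))
    {a b c d : Fin 9} (h : D4 a b c d) : OO Y N a b d c = OO Y N a b c d := by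
  unfold OO
  rw [SS_ov_reverse' (genP hN hY h) (P_reverse Y hN h.2.2.2.2.2)]

theorem OO_add {Y : ℕ → E3} {N : ℕ} (hN : 1 ≤ N) (hY : Generic Y (labBound N))
    {a b c d : Fin 9} (h : D4 a b c d) : OO Y N a b c d + OO Y N c d a b =
      (hc Y N a b c : ZMod 2) + (hc Y N a b d : ZMod 2) + (hc Y N c d a : ZMod 2)
      + (hc Y N c d b : ZMod 2) + (bet (Y a) (Y c) : ZMod 2) + (bet (Y a) (Y d) : ZMod 2)
      + (bet (Y b) (Y c) : ZMod 2) + (bet (Y b) (Y d) : ZMod 2) := by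
  have h1 := SS_ov_add (genP hN hY h)
  rw [SS_eta_P hN hY h] at h1
  have h2 : ∀ x : ZMod 2, -x = x := by decide
  unfold OO
  rw [h1]
  unfold RC
  push_cast
  simp only [sub_eq_add_neg, h2]
  ring

theorem jobG1 : JobG1 := by
  intro Y N hN hY
  have hD6 : ∀ v : Fin 6 → Fin 9, Function.Injective v → ∀ a b c d e f : Fin 6,
      D6 a b c d e f → D6 (v a) (v b) (v c) (v d) (v e) (v f) := by
    intro v hv a b c d e f h
    unfold D6 at h ⊢
    simpa only [ne_eq, hv.eq_iff] using h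
  have hD4 : ∀ v : Fin 6 → Fin 9, Function.Injective v → ∀ a b c d : Fin 6,
      D4 a b c d → D4 (v a) (v b) (v c) (v d) := by
    intro v hv a b c d h
    simpa only [D4, ne_eq, hv.eq_iff] using h
  refine ⟨crossMat_anti Y hN, crossMat_symm Y N, ?_, ?_⟩
  · intro v hv
    rw [triSum_crossMat hN hY (hD6 v hv 0 1 2 3 4 5 (by unfold D6; decide))]
    exact Dvd.intro _ rfl
  · intro v hv
    rw [← ZMod.intCast_eq_one_iff_odd]
    have H := fun a b c d e f h => half_triSum hN hY (hD6 v hv a b c d e f h)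
    rw [H 0 1 2 3 4 5 (by unfold D6; decide), H 0 1 3 2 4 5 (by unfold D6; decide),
      H 0 1 4 2 3 5 (by unfold D6; decide), H 0 1 5 2 3 4 (by unfold D6; decide),
      H 0 2 3 1 4 5 (by unfold D6; decide), H 0 2 4 1 3 5 (by unfold D6; decide),
      H 0 2 5 1 3 4 (by unfold D6; decide), H 0 3 4 1 2 5 (by unfold D6; decide),
      H 0 3 5 1 2 4 (by unfold D6; decide), H 0 4 5 1 2 3 (by unfold D6; decide)]
    push_cast
    simp only [tri_cast]
    exact parity_core (fun a b c d => OO Y N (v a) (v b) (v c) (v d))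
      (fun a b c => (hc Y N (v a) (v b) (v c) : ZMod 2))
      (fun a b => (bet (Y (v a)) (Y (v b)) : ZMod 2))
      (fun a b c d h => OO_swap hN hY (hD4 v hv a b c d h))
      (fun a b c d h => OO_swap' hN hY (hD4 v hv a b c d h))
      (fun a b h => by
        have h1 : (Y (v a)) 0 ≠ (Y (v b)) 0 := by
          have hb : ∀ u : Fin 9, (u : ℕ) < labBound N := by
            intro u; have := u.2; unfold labBound; omega
          refine hY.x_ne _ (hb _) _ (hb _) ?_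
          rw [Ne, ← Fin.ext_iff, hv.eq_iff]
          exact h
        have h2 : ∀ x : ZMod 2, 1 - x = 1 + x := by decide
        show ((bet (Y (v b)) (Y (v a)) : ℤ) : ZMod 2) = 1 + ((bet (Y (v a)) (Y (v b)) : ℤ) : ZMod 2)
        rw [bet_swap _ _ h1, ← h2]
        push_cast
        rfl)
      (fun a b c d h => OO_add hN hY (hD4 v hv a b c d h))

end Pool.Agent.H58.K9G1
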