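import Pool.Agent.H58.K9G1.Sum

/-!
# JOB G1, part 4: the parity computation in `ZMod 2`, labels, and the final statement
-/

namespace Pool.Agent.H58.K9G1

open Pool.Agent.H23.K9 Finset

/-- Four distinct indices. -/
abbrev D4 {n : ℕ} (a b c d : Fin n) : Prop := a ≠ b ∧ a ≠ c ∧ a ≠ d ∧ b ≠ c ∧ b ≠ d ∧ c ≠ d

/-- The sum over pairs of edges of two triangles. -/
def tri {n : ℕ} {R : Type} [Add R] (m : Fin n → Fin n → Fin n → Fin n → R)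
    (a b c d e f : Fin n) : R :=
  (m a b d e + m a b e f + m a b f d) + (m b c d e + m b c e f + m b c f d)
    + (m c a d e + m c a e f + m c a f d)

/-- Conway-Gordon-Sachs parity, abstractly. -/
theorem parity_core (O : Fin 6 → Fin 6 → Fin 6 → Fin 6 → ZMod 2)
    (h : Fin 6 → Fin 6 → Fin 6 → ZMod 2) (B : Fin 6 → Fin 6 → ZMod 2)
    (O1' : ∀ a b c d, D4 a b c d → O b a c d = O a b c d)
    (O2' : ∀ a b c d, D4 a b c d → O a b d c = O a b c d)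
    (hB : ∀ a b, a ≠ b → B b a = 1 + B a b)
    (hO' : ∀ a b c d, D4 a b c d → O a b c d + O c d a b =
      h a b c + h a b d + h c d a + h c d b + B a c + B a d + B b c + B b d) :
    tri O 0 1 2 3 4 5 + tri O 0 1 3 2 4 5 + tri O 0 1 4 2 3 5 + tri O 0 1 5 2 3 4
      + tri O 0 2 3 1 4 5 + tri O 0 2 4 1 3 5 + tri O 0 2 5 1 3 4 + tri O 0 3 4 1 2 5
      + tri O 0 3 5 1 2 4 + tri O 0 4 5 1 2 3 = 1 := by
  have two : (2 : ZMod 2) = 0 := rfl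
  unfold tri
  linear_combination
    O2' 0 1 3 5 (by decide) + O2' 1 2 3 5 (by decide) + O1' 0 2 3 4 (by decide)
    + O1' 0 2 4 5 (by decide) + O1' 0 2 5 3 (by decide) + O2' 0 2 3 5 (by decide)
    + O2' 0 1 2 5 (by decide) + O2' 1 3 2 5 (by decide) + O1' 0 3 2 4 (by decide)
    + O1' 0 3 4 5 (by decide) + O1' 0 3 5 2 (by decide) + O2' 0 3 2 5 (by decide)
    + O2' 0 1 2 5 (by decide) + O2' 1 4 2 5 (by decide) + O1' 0 4 2 3 (by decide)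
    + O1' 0 4 3 5 (by decide) + O1' 0 4 5 2 (by decide) + O2' 0 4 2 5 (by decide)
    + O2' 0 1 2 4 (by decide) + O2' 1 5 2 4 (by decide) + O1' 0 5 2 3 (by decide)
    + O1' 0 5 3 4 (by decide) + O1' 0 5 4 2 (by decide) + O2' 0 5 2 4 (by decide)
    + O2' 0 2 1 5 (by decide) + O2' 2 3 1 5 (by decide) + O1' 0 3 1 4 (by decide)
    + O1' 0 3 4 5 (by decide) + O1' 0 3 5 1 (by decide) + O2' 0 3 1 5 (by decide)
    + O2' 0 2 1 5 (by decide) + O2' 2 4 1 5 (by decide) + O1' 0 4 1 3 (by decide)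
    + O1' 0 4 3 5 (by decide) + O1' 0 4 5 1 (by decide) + O2' 0 4 1 5 (by decide)
    + O2' 0 2 1 4 (by decide) + O2' 2 5 1 4 (by decide) + O1' 0 5 1 3 (by decide)
    + O1' 0 5 3 4 (by decide) + O1' 0 5 4 1 (by decide) + O2' 0 5 1 4 (by decide)
    + O2' 0 3 1 5 (by decide) + O2' 3 4 1 5 (by decide) + O1' 0 4 1 2 (by decide)
    + O1' 0 4 2 5 (by decide) + O1' 0 4 5 1 (by decide) + O2' 0 4 1 5 (by decide)
    + O2' 0 3 1 4 (by decide) + O2' 3 5 1 4 (by decide) + O1' 0 5 1 2 (by decide)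
    + O1' 0 5 2 4 (by decide) + O1' 0 5 4 1 (by decide) + O2' 0 5 1 4 (by decide)
    + O2' 0 4 1 3 (by decide) + O2' 4 5 1 3 (by decide) + O1' 0 5 1 2 (by decide)
    + O1' 0 5 2 3 (by decide) + O1' 0 5 3 1 (by decide) + O2' 0 5 1 3 (by decide)
    + hO' 1 2 3 4 (by decide) + hO' 1 2 4 5 (by decide) + hO' 1 2 3 5 (by decide)
    + hO' 1 3 2 4 (by decide) + hO' 1 3 4 5 (by decide) + hO' 1 3 2 5 (by decide)
    + hO' 1 4 2 3 (by decide) + hO' 1 4 3 5 (by decide) + hO' 1 4 2 5 (by decide)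
    + hO' 1 5 2 3 (by decide) + hO' 1 5 3 4 (by decide) + hO' 1 5 2 4 (by decide)
    + hO' 2 3 4 5 (by decide) + hO' 2 4 3 5 (by decide) + hO' 2 5 3 4 (by decide)
    + hB 2 3 (by decide) + hB 2 3 (by decide) + hB 2 4 (by decide) + hB 2 4 (by decide)
    + hB 3 4 (by decide) + hB 3 4 (by decide) + hB 3 4 (by decide) + hB 2 5 (by decide)
    + hB 2 5 (by decide) + hB 3 5 (by decide) + hB 3 5 (by decide) + hB 3 5 (by decide)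
    + hB 4 5 (by decide) + hB 4 5 (by decide) + hB 4 5 (by decide) + (1 * O 0 1 3 4
    + 1 * O 0 1 4 5 + 1 * O 0 1 2 4 + 1 * O 0 1 2 3 + 1 * O 0 1 3 5 + 1 * O 0 2 1 4
    + 1 * O 0 2 4 5 + 1 * O 0 2 1 3 + 1 * O 0 2 3 5 + 1 * O 0 2 3 4 + 1 * O 0 3 1 2
    + 1 * O 0 3 2 5 + 1 * O 0 3 2 4 + 1 * O 0 4 1 2 + 1 * O 0 4 2 3 + 7 * 1 + 1 * O 0 1 2 5
    + 1 * O 0 3 4 5 + 1 * O 0 4 3 5 + 1 * O 0 4 2 5 + 1 * O 0 5 2 3 + 1 * O 0 5 3 4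
    + 1 * O 0 5 2 4 + 1 * O 0 2 1 5 + 1 * O 0 3 1 4 + 1 * O 0 3 1 5 + 1 * O 0 4 1 3
    + 1 * O 0 4 1 5 + 1 * O 0 5 1 3 + 1 * O 0 5 1 4 + 1 * O 0 5 1 2 + 1 * h 1 2 3 + 1 * h 1 2 4
    + 1 * h 3 4 1 + 1 * h 3 4 2 + 3 * B 1 3 + 3 * B 1 4 + 3 * B 2 3 + 3 * B 2 4 + 1 * h 1 2 5
    + 1 * h 4 5 1 + 1 * h 4 5 2 + 3 * B 1 5 + 3 * B 2 5 + 1 * h 3 5 1 + 1 * h 3 5 2
    + 1 * h 1 3 2 + 1 * h 1 3 4 + 1 * h 2 4 1 + 1 * h 2 4 3 + 3 * B 1 2 + 3 * B 3 4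
    + 1 * h 1 3 5 + 1 * h 4 5 3 + 3 * B 3 5 + 1 * h 2 5 1 + 1 * h 2 5 3 + 1 * h 1 4 2
    + 1 * h 1 4 3 + 1 * h 2 3 1 + 1 * h 2 3 4 + 1 * h 1 4 5 + 1 * h 3 5 4 + 3 * B 4 5
    + 1 * h 2 5 4 + 1 * h 1 5 2 + 1 * h 1 5 3 + 1 * h 2 3 5 + 1 * h 1 5 4 + 1 * h 3 4 5
    + 1 * h 2 4 5) * two

end Pool.Agent.H58.K9G1
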