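import Pool.Agent.H23.K9.Interface

/-!
# JOB G1, part 1: the four-point identity for plane crossings
-/

namespace Pool.Agent.H58.K9G1

open Pool.Agent.H23.K9

/-- Core of the four-point identity: `D1 = D_abc`, `D2 = D_abd`, `D3 = D_cda`, `D4 = D_cdb`. -/
theorem four_core (xa xb xc xd D1 D2 D3 D4 : ℝ)
    (hac : xa ≠ xc) (had : xa ≠ xd) (hbc : xb ≠ xc) (hbd : xb ≠ xd)
    (h1 : D1 ≠ 0) (h2 : D2 ≠ 0) (h3 : D3 ≠ 0) (h4 : D4 ≠ 0)
    (r1 : D4 - D3 + D2 - D1 = 0)
    (r2 : xa * D4 - xb * D3 + xc * D2 - xd * D1 = 0)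
    (hab : xa < xb) (hcd : xc < xd) :
    (if D1 * D2 < 0 ∧ D3 * D4 < 0 then (if 0 < D2 then 1 else -1) else 0 : ℤ) =
      (if xa < xd ∧ xd < xb ∧ 0 < D2 then 1 else 0)
      - (if xa < xc ∧ xc < xb ∧ 0 < D1 then 1 else 0)
      - (if xc < xb ∧ xb < xd ∧ 0 < D4 then 1 else 0)
      + (if xc < xa ∧ xa < xd ∧ 0 < D3 then 1 else 0)
      + (if xb < xd then 1 else 0) - (if xb < xc then 1 else 0)
      - (if xa < xd then 1 else 0) + (if xa < xc then 1 else 0) := by
  have e1 : (xb - xa) * D3 - (xc - xa) * D2 + (xd - xa) * D1 = 0 := by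
    linear_combination -r2 + xa * r1
  have e2 : (xb - xa) * D4 - (xc - xb) * D2 + (xd - xb) * D1 = 0 := by
    linear_combination -r2 + xb * r1
  have e3 : (xc - xa) * D4 - (xc - xb) * D3 + (xd - xc) * D1 = 0 := by
    linear_combination -r2 + xc * r1
  have e4 : (xd - xa) * D4 - (xd - xb) * D3 + (xd - xc) * D2 = 0 := by
    linear_combination -r2 + xd * r1
  have hab' := sub_pos.2 hab
  have hcd' := sub_pos.2 hcd
  have hab'' := hab.not_gt
  have hcd'' := hcd.not_gt
  rcases lt_or_gt_of_ne hac with kac | kac <;>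
  rcases lt_or_gt_of_ne had with kad | kad <;>
  rcases lt_or_gt_of_ne hbc with kbc | kbc <;>
  rcases lt_or_gt_of_ne hbd with kbd | kbd <;>
  (try (exfalso; linarith)) <;>
  (have lac := sub_pos.2 kac; have lad := sub_pos.2 kad; have lbc := sub_pos.2 kbc
   have lbd := sub_pos.2 kbd
   have mac := kac.not_gt; have mad := kad.not_gt; have mbc := kbc.not_gt
   have mbd := kbd.not_gt) <;>
  rcases lt_or_gt_of_ne h1 with k1 | k1 <;>
  rcases lt_or_gt_of_ne h2 with k2 | k2 <;>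
  rcases lt_or_gt_of_ne h3 with k3 | k3 <;>
  rcases lt_or_gt_of_ne h4 with k4 | k4 <;>
  (have n1 := k1.not_gt; have n2 := k2.not_gt; have n3 := k3.not_gt; have n4 := k4.not_gt) <;>
  first
  | (simp only [kac, kad, kbc, kbd, mac, mad, mbc, mbd, k1, k2, k3, k4, n1, n2, n3, n4,
      mul_neg_iff, and_true, and_false, or_false, or_true, if_true, if_false, and_self,
      or_self]; norm_num; done)
  | (exfalso; nlinarith)

end Pool.Agent.H58.K9G1
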