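import Pool.Agent.H58.K9G1.Four

/-!
# JOB G1, part 2: crossings of two polygonal paths
-/

namespace Pool.Agent.H58.K9G1

open Pool.Agent.H23.K9

/-- The projected segments `ab` and `cd` cross. -/
def Cr (a b c d : E3) : Prop :=
  planarDet a b c * planarDet a b d < 0 ∧ planarDet c d a * planarDet c d b < 0

open Classical in
/-- Plane crossing sign. -/
noncomputable def eta (a b c d : E3) : ℤ :=
  if Cr a b c d then (if 0 < planarDet a b d then 1 else -1) else 0

open Classical in
/-- `1` if the segments cross and the sign of the crossing equals `eta`, else `0`. -/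
noncomputable def ov (a b c d : E3) : ℤ :=
  if Cr a b c d ∧ (0 < spaceDet a b c d ↔ 0 < planarDet a b d) then 1 else 0

open Classical in
/-- Comparison of `x`-coordinates. -/
noncomputable def bet (p q : E3) : ℤ := if p 0 < q 0 then 1 else 0

open Classical in
/-- Signed indicator of `p` lying above the segment `ab`. -/
noncomputable def HH (a b p : E3) : ℤ :=
  if a 0 < p 0 ∧ p 0 < b 0 ∧ 0 < planarDet a b p then 1
  else if b 0 < p 0 ∧ p 0 < a 0 ∧ planarDet a b p < 0 then -1 else 0

theorem planarDet_swap (a b c : E3) : planarDet b a c = - planarDet a b c := by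
  unfold planarDet; ring

theorem spaceDet_swap (a b c d : E3) : spaceDet b a c d = - spaceDet a b c d := by
  unfold spaceDet; ring

theorem spaceDet_swap' (a b c d : E3) : spaceDet a b d c = - spaceDet a b c d := by
  unfold spaceDet; ring

theorem spaceDet_symm (a b c d : E3) : spaceDet c d a b = spaceDet a b c d := by
  unfold spaceDet; ring

theorem Cr_swap (a b c d : E3) : Cr b a c d ↔ Cr a b c d := by
  unfold Cr
  rw [planarDet_swap a b c, planarDet_swap a b d, neg_mul_neg, mul_comm (planarDet c d b)]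

theorem Cr_swap' (a b c d : E3) : Cr a b d c ↔ Cr a b c d := by
  unfold Cr
  rw [planarDet_swap c d a, planarDet_swap c d b, neg_mul_neg, mul_comm (planarDet a b d)]

theorem Cr_symm (a b c d : E3) : Cr c d a b ↔ Cr a b c d := by
  unfold Cr
  rw [and_comm]

theorem HH_swap (a b p : E3) : HH b a p = - HH a b p := by
  unfold HH
  rw [planarDet_swap a b p]
  by_cases h1 : a 0 < p 0 ∧ p 0 < b 0 ∧ 0 < planarDet a b p
  · have h2 : ¬ (b 0 < p 0 ∧ p 0 < a 0 ∧ 0 < - planarDet a b p) := by
      rintro ⟨u, v, w⟩; linarith [h1.1]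
    have h3 : (a 0 < p 0 ∧ p 0 < b 0 ∧ - planarDet a b p < 0) := by
      refine ⟨h1.1, h1.2.1, by linarith [h1.2.2]⟩
    rw [if_pos h1, if_neg h2, if_pos h3]
  · rw [if_neg h1]
    have h1' : ¬ (a 0 < p 0 ∧ p 0 < b 0 ∧ - planarDet a b p < 0) := by
      rintro ⟨u, v, w⟩; exact h1 ⟨u, v, by linarith⟩
    by_cases h2 : b 0 < p 0 ∧ p 0 < a 0 ∧ planarDet a b p < 0
    · have h3 : b 0 < p 0 ∧ p 0 < a 0 ∧ 0 < - planarDet a b p :=
        ⟨h2.1, h2.2.1, by linarith [h2.2.2]⟩
      rw [if_pos h2, if_pos h3]; norm_num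
    · have h3 : ¬ (b 0 < p 0 ∧ p 0 < a 0 ∧ 0 < - planarDet a b p) := by
        rintro ⟨u, v, w⟩; exact h2 ⟨u, v, by linarith⟩
      rw [if_neg h2, if_neg h3, if_neg h1']; norm_num

theorem eta_swap (a b c d : E3) (h : planarDet a b d ≠ 0) : eta b a c d = - eta a b c d := by
  unfold eta
  by_cases hc : Cr a b c d
  · rw [if_pos hc, if_pos ((Cr_swap a b c d).2 hc), planarDet_swap a b d]
    rcases lt_or_gt_of_ne h with h' | h'
    · rw [if_pos (by linarith), if_neg (by linarith)]; norm_num
    · rw [if_neg (by linarith), if_pos h']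
  · rw [if_neg hc, if_neg (fun h => hc ((Cr_swap a b c d).1 h))]; norm_num

theorem eta_swap' (a b c d : E3) : eta a b d c = - eta a b c d := by
  unfold eta
  by_cases hc : Cr a b c d
  · rw [if_pos hc, if_pos ((Cr_swap' a b c d).2 hc)]
    have h1 := hc.1
    rcases mul_neg_iff.1 h1 with ⟨u, v⟩ | ⟨u, v⟩
    · rw [if_pos u, if_neg (by linarith)]; norm_num
    · rw [if_neg (by linarith), if_pos v]
  · rw [if_neg hc, if_neg (fun h => hc ((Cr_swap' a b c d).1 h))]; norm_num

theorem bet_swap (p q : E3) (h : p 0 ≠ q 0) : bet q p = 1 - bet p q := by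
  unfold bet
  rcases lt_or_gt_of_ne h with h' | h'
  · rw [if_pos h', if_neg h'.not_gt]; norm_num
  · rw [if_pos h', if_neg h'.not_gt]; norm_num

/-- General position of two segments. -/
structure Gen2 (a b c d : E3) : Prop where
  ab : a 0 ≠ b 0
  cd : c 0 ≠ d 0
  ac : a 0 ≠ c 0
  ad : a 0 ≠ d 0
  bc : b 0 ≠ c 0
  bd : b 0 ≠ d 0
  abc : planarDet a b c ≠ 0
  abd : planarDet a b d ≠ 0
  cda : planarDet c d a ≠ 0
  cdb : planarDet c d b ≠ 0
  abcd : spaceDet a b c d ≠ 0

theorem Gen2.swap {a b c d : E3} (h : Gen2 a b c d) : Gen2 b a c d where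
  ab := h.ab.symm
  cd := h.cd
  ac := h.bc
  ad := h.bd
  bc := h.ac
  bd := h.ad
  abc := by rw [planarDet_swap]; exact neg_ne_zero.2 h.abc
  abd := by rw [planarDet_swap]; exact neg_ne_zero.2 h.abd
  cda := h.cdb
  cdb := h.cda
  abcd := by rw [spaceDet_swap]; exact neg_ne_zero.2 h.abcd

theorem Gen2.swap' {a b c d : E3} (h : Gen2 a b c d) : Gen2 a b d c where
  ab := h.ab
  cd := h.cd.symm
  ac := h.ad
  ad := h.ac
  bc := h.bd
  bd := h.bc
  abc := h.abd
  abd := h.abc
  cda := by rw [planarDet_swap]; exact neg_ne_zero.2 h.cda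
  cdb := by rw [planarDet_swap]; exact neg_ne_zero.2 h.cdb
  abcd := by rw [spaceDet_swap']; exact neg_ne_zero.2 h.abcd

theorem Gen2.symm {a b c d : E3} (h : Gen2 a b c d) : Gen2 c d a b where
  ab := h.cd
  cd := h.ab
  ac := h.ac.symm
  ad := h.bc.symm
  bc := h.ad.symm
  bd := h.bd.symm
  abc := h.cda
  abd := h.cdb
  cda := h.abc
  cdb := h.abd
  abcd := by rw [spaceDet_symm]; exact h.abcd

/-- The right hand side of the four-point identity. -/
noncomputable def rhs (a b c d : E3) : ℤ :=
  HH a b d - HH a b c - HH c d b + HH c d a + bet b d - bet b c - bet a d + bet a c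

theorem rhs_swap (a b c d : E3) : rhs b a c d = - rhs a b c d := by
  unfold rhs
  rw [HH_swap a b d, HH_swap a b c]; ring

theorem rhs_swap' (a b c d : E3) : rhs a b d c = - rhs a b c d := by
  unfold rhs
  rw [HH_swap c d b, HH_swap c d a]; ring

theorem four_sorted {a b c d : E3} (h : Gen2 a b c d) (hab : a 0 < b 0) (hcd : c 0 < d 0) :
    eta a b c d = rhs a b c d := by
  have key := four_core (a 0) (b 0) (c 0) (d 0) (planarDet a b c) (planarDet a b d)
    (planarDet c d a) (planarDet c d b) h.ac h.ad h.bc h.bd h.abc h.abd h.cda h.cdb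
    (by unfold planarDet; ring) (by unfold planarDet; ring) hab hcd
  have g : ∀ u v w : E3, u 0 < v 0 → HH u v w =
      if u 0 < w 0 ∧ w 0 < v 0 ∧ 0 < planarDet u v w then 1 else 0 := by
    intro u v w huv
    unfold HH
    rw [if_neg (c := v 0 < w 0 ∧ w 0 < u 0 ∧ planarDet u v w < 0)]
    rintro ⟨p, q, r⟩; linarith
  unfold eta rhs Cr bet
  rw [g a b d hab, g a b c hab, g c d b hcd, g c d a hcd]
  convert key using 6

theorem four_point {a b c d : E3} (h : Gen2 a b c d) : eta a b c d = rhs a b c d := by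
  rcases lt_or_gt_of_ne h.ab with hab | hab <;> rcases lt_or_gt_of_ne h.cd with hcd | hcd
  · exact four_sorted h hab hcd
  · have := four_sorted h.swap' hab hcd
    rw [rhs_swap', eta_swap'] at this
    linarith
  · have := four_sorted h.swap hab hcd
    rw [rhs_swap, eta_swap _ _ _ _ h.abd] at this
    linarith
  · have := four_sorted h.swap.swap' hab hcd
    rw [rhs_swap', eta_swap', rhs_swap, eta_swap _ _ _ _ h.abd] at this
    linarith

theorem crossSign_eq {a b c d : E3} (h : Gen2 a b c d) :
    crossSign a b c d = 2 * (eta a b c d * ov a b c d) - eta a b c d := by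
  unfold crossSign eta ov
  by_cases hc : Cr a b c d
  · have hc' := hc
    unfold Cr at hc'
    rw [if_pos hc', if_pos hc]
    rcases lt_or_gt_of_ne h.abcd with h1 | h1 <;> rcases lt_or_gt_of_ne h.abd with h2 | h2
    · rw [if_neg h2.not_gt, if_pos ⟨hc, by constructor <;> intro h' <;> linarith⟩, sign_neg h1]
      norm_num
    · rw [if_pos h2, if_neg, sign_neg h1]
      · norm_num
      · rintro ⟨_, h3⟩
        linarith [h3.2 h2]
    · rw [if_neg h2.not_gt, if_neg, sign_pos h1]
      · norm_num
      · rintro ⟨_, h3⟩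
        linarith [h3.1 h1]
    · rw [if_pos h2, if_pos ⟨hc, by constructor <;> intro h' <;> assumption⟩, sign_pos h1]
      norm_num
  · have hc' := hc
    unfold Cr at hc'
    rw [if_neg hc', if_neg hc]
    norm_num

theorem crossSign_swap (a b c d : E3) : crossSign b a c d = - crossSign a b c d := by
  unfold crossSign
  rw [planarDet_swap a b c, planarDet_swap a b d, neg_mul_neg,
    mul_comm (planarDet c d b), spaceDet_swap a b c d, Left.sign_neg]
  split_ifs <;> simp

theorem crossSign_symm (a b c d : E3) : crossSign c d a b = crossSign a b c d := by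
  unfold crossSign
  rw [spaceDet_symm]
  exact if_congr and_comm rfl rfl

open Classical in
theorem ov_swap {a b c d : E3} (h : Gen2 a b c d) : ov b a c d = ov a b c d := by
  unfold ov
  refine if_congr (and_congr (Cr_swap a b c d) ?_) rfl rfl
  rw [planarDet_swap a b d, spaceDet_swap a b c d]
  have : (0 < -spaceDet a b c d ↔ 0 < -planarDet a b d) ↔
      (0 < spaceDet a b c d ↔ 0 < planarDet a b d) := by
    rcases lt_or_gt_of_ne h.abcd with h1 | h1 <;> rcases lt_or_gt_of_ne h.abd with h2 | h2 <;>
    constructor <;> intro h3 <;> constructor <;> intro h4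
    all_goals first | linarith | (exfalso; first | linarith [h3.1 (by linarith)] | linarith [h3.2 (by linarith)])
  exact this

open Classical in
theorem ov_swap' {a b c d : E3} (h : Gen2 a b c d) : ov a b d c = ov a b c d := by
  unfold ov
  by_cases hc : Cr a b c d
  · have : (0 < -spaceDet a b c d ↔ 0 < planarDet a b c) ↔
        (0 < spaceDet a b c d ↔ 0 < planarDet a b d) := by
      rcases mul_neg_iff.1 hc.1 with ⟨h2, h3⟩ | ⟨h2, h3⟩ <;>
      rcases lt_or_gt_of_ne h.abcd with h1 | h1 <;>
      constructor <;> intro h5 <;> constructor <;> intro h4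
      all_goals first | linarith | (exfalso; first | linarith [h5.1 (by linarith)] | linarith [h5.2 (by linarith)])
    refine if_congr (and_congr (Cr_swap' a b c d) ?_) rfl rfl
    rw [spaceDet_swap' a b c d]
    exact this
  · rw [if_neg (fun h => hc ((Cr_swap' a b c d).1 h.1)), if_neg (fun h => hc h.1)]

theorem eta_symm_of_Cr {a b c d : E3} (hc : Cr a b c d) :
    (0 < planarDet c d b ↔ ¬ 0 < planarDet a b d) := by
  obtain ⟨h1, h2⟩ := hc
  have r1 : planarDet c d b - planarDet c d a + planarDet a b d - planarDet a b c = 0 := by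
    unfold planarDet; ring
  rcases mul_neg_iff.1 h1 with ⟨h3, h4⟩ | ⟨h3, h4⟩ <;>
  rcases mul_neg_iff.1 h2 with ⟨h5, h6⟩ | ⟨h5, h6⟩
  · exfalso; linarith
  · constructor
    · intro _; linarith
    · intro _; exact h6
  · constructor
    · intro h; linarith
    · intro h; exact absurd h4 h
  · exfalso; linarith

/-- At a crossing exactly one of `ov (ab, cd)` and `ov (cd, ab)` is `1`. -/
theorem ov_add_ov {a b c d : E3} (h : Gen2 a b c d) :
    ((ov a b c d + ov c d a b : ℤ) : ZMod 2) = ((eta a b c d : ℤ) : ZMod 2) := by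
  unfold ov eta
  rw [spaceDet_symm a b c d]
  by_cases hc : Cr a b c d
  · have hcc := eta_symm_of_Cr hc
    have hc' := (Cr_symm a b c d).2 hc
    rcases lt_or_gt_of_ne h.abcd with h1 | h1 <;> rcases lt_or_gt_of_ne h.abd with h2 | h2
    all_goals
      simp only [hc, hc', hcc, h1, h2, h1.not_gt, h2.not_gt, true_and, iff_true, iff_false,
        not_true, not_false_iff, true_iff, false_iff, if_true, if_false, and_true, and_false]
      rfl
  · rw [if_neg hc, if_neg (fun h => hc h.1), if_neg (fun h => hc ((Cr_symm a b c d).1 h.1))]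
    norm_num

end Pool.Agent.H58.K9G1
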