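import Pool.Agent.H58.K9G1.Path

/-!
# JOB G1, part 3: sums over polygonal paths
-/

namespace Pool.Agent.H58.K9G1

open Pool.Agent.H23.K9 Finset

/-- Two polygonal paths in general position. -/
def GenP (p q : ℕ → E3) (N : ℕ) : Prop :=
  ∀ k < N, ∀ l < N, Gen2 (p k) (p (k + 1)) (q l) (q (l + 1))

theorem GenP.symm {p q : ℕ → E3} {N : ℕ} (h : GenP p q N) : GenP q p N :=
  fun k hk l hl => (h l hl k hk).symm

/-- Double sum over pairs of edges of two paths. -/
noncomputable def SS (F : E3 → E3 → E3 → E3 → ℤ) (p q : ℕ → E3) (N : ℕ) : ℤ :=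
  ∑ k ∈ range N, ∑ l ∈ range N, F (p k) (p (k + 1)) (q l) (q (l + 1))

/-- Sum of `HH` over the edges of a path. -/
noncomputable def hh (p : ℕ → E3) (N : ℕ) (x : E3) : ℤ :=
  ∑ k ∈ range N, HH (p k) (p (k + 1)) x

theorem SS_congr {F G : E3 → E3 → E3 → E3 → ℤ} {p q : ℕ → E3} {N : ℕ}
    (h : ∀ k < N, ∀ l < N, F (p k) (p (k + 1)) (q l) (q (l + 1)) =
      G (p k) (p (k + 1)) (q l) (q (l + 1))) : SS F p q N = SS G p q N := by
  unfold SS
  refine sum_congr rfl fun k hk => sum_congr rfl fun l hl => ?_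
  exact h k (mem_range.1 hk) l (mem_range.1 hl)

theorem sum_telescope (F : ℕ → ℕ → ℤ) (N : ℕ) :
    ∑ k ∈ range N, ∑ l ∈ range N, (F (k + 1) (l + 1) - F (k + 1) l - F k (l + 1) + F k l) =
      F N N - F N 0 - F 0 N + F 0 0 := by
  have h1 : ∀ k, ∑ l ∈ range N, (F (k + 1) (l + 1) - F (k + 1) l - F k (l + 1) + F k l) =
      (F (k + 1) N - F (k + 1) 0) - (F k N - F k 0) := by
    intro k
    rw [← sum_range_sub (fun l => F (k + 1) l) N, ← sum_range_sub (fun l => F k l) N,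
      ← sum_sub_distrib]
    refine sum_congr rfl fun l _ => ?_
    ring
  simp only [h1]
  rw [sum_range_sub (fun k => F k N - F k 0) N]
  ring

/-- The coarse version of `rhs`. -/
noncomputable def RR (p q : ℕ → E3) (N : ℕ) : ℤ :=
  hh p N (q N) - hh p N (q 0) - hh q N (p N) + hh q N (p 0)
    + bet (p N) (q N) - bet (p N) (q 0) - bet (p 0) (q N) + bet (p 0) (q 0)

theorem SS_eta {p q : ℕ → E3} {N : ℕ} (h : GenP p q N) : SS eta p q N = RR p q N := by
  have h1 : SS eta p q N = SS rhs p q N :=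
    SS_congr fun k hk l hl => four_point (h k hk l hl)
  rw [h1]
  have h2 : SS rhs p q N =
      (∑ k ∈ range N, ∑ l ∈ range N,
        (HH (p k) (p (k + 1)) (q (l + 1)) - HH (p k) (p (k + 1)) (q l)))
      - (∑ l ∈ range N, ∑ k ∈ range N,
        (HH (q l) (q (l + 1)) (p (k + 1)) - HH (q l) (q (l + 1)) (p k)))
      + ∑ k ∈ range N, ∑ l ∈ range N, (bet (p (k + 1)) (q (l + 1)) - bet (p (k + 1)) (q l)
          - bet (p k) (q (l + 1)) + bet (p k) (q l)) := by
    rw [sum_comm (f := fun l k => (HH (q l) (q (l + 1)) (p (k + 1)) - HH (q l) (q (l + 1)) (p k)))]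
    unfold SS
    rw [← sum_sub_distrib, ← sum_add_distrib]
    refine sum_congr rfl fun k _ => ?_
    rw [← sum_sub_distrib, ← sum_add_distrib]
    refine sum_congr rfl fun l _ => ?_
    unfold rhs
    ring
  rw [h2, sum_telescope (fun k l => bet (p k) (q l))]
  have h3 : ∀ k, ∑ l ∈ range N,
      (HH (p k) (p (k + 1)) (q (l + 1)) - HH (p k) (p (k + 1)) (q l)) =
      HH (p k) (p (k + 1)) (q N) - HH (p k) (p (k + 1)) (q 0) := fun k =>
    sum_range_sub (fun l => HH (p k) (p (k + 1)) (q l)) N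
  have h4 : ∀ l, ∑ k ∈ range N,
      (HH (q l) (q (l + 1)) (p (k + 1)) - HH (q l) (q (l + 1)) (p k)) =
      HH (q l) (q (l + 1)) (p N) - HH (q l) (q (l + 1)) (p 0) := fun l =>
    sum_range_sub (fun k => HH (q l) (q (l + 1)) (p k)) N
  simp only [h3, h4, sum_sub_distrib]
  unfold RR hh
  ring

theorem SS_cross {p q : ℕ → E3} {N : ℕ} (h : GenP p q N) :
    SS crossSign p q N = 2 * SS (fun a b c d => eta a b c d * ov a b c d) p q N
      - SS eta p q N := by
  have h1 : SS crossSign p q N =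
      SS (fun a b c d => 2 * (eta a b c d * ov a b c d) - eta a b c d) p q N :=
    SS_congr fun k hk l hl => crossSign_eq (h k hk l hl)
  rw [h1]
  unfold SS
  simp only [sum_sub_distrib, mul_sum]

theorem eta_mul_ov (a b c d : E3) :
    ((eta a b c d * ov a b c d : ℤ) : ZMod 2) = ((ov a b c d : ℤ) : ZMod 2) := by
  unfold eta ov
  by_cases hc : Cr a b c d
  · rw [if_pos hc]
    split_ifs <;> rfl
  · rw [if_neg hc, if_neg (fun h => hc h.1)]
    norm_num

theorem SS_eta_mul_ov (p q : ℕ → E3) (N : ℕ) :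
    ((SS (fun a b c d => eta a b c d * ov a b c d) p q N : ℤ) : ZMod 2) =
      ((SS ov p q N : ℤ) : ZMod 2) := by
  unfold SS
  rw [Int.cast_sum, Int.cast_sum]
  refine sum_congr rfl fun k _ => ?_
  rw [Int.cast_sum, Int.cast_sum]
  refine sum_congr rfl fun l _ => ?_
  exact eta_mul_ov _ _ _ _

theorem SS_ov_add {p q : ℕ → E3} {N : ℕ} (h : GenP p q N) :
    ((SS ov p q N : ℤ) : ZMod 2) + ((SS ov q p N : ℤ) : ZMod 2) =
      ((SS eta p q N : ℤ) : ZMod 2) := by
  have h1 : SS ov q p N = ∑ k ∈ range N, ∑ l ∈ range N, ov (q l) (q (l + 1)) (p k) (p (k + 1)) := by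
    unfold SS
    rw [sum_comm]
  rw [← Int.cast_add, h1]
  unfold SS
  rw [← sum_add_distrib, Int.cast_sum, Int.cast_sum]
  refine sum_congr rfl fun k hk => ?_
  rw [← sum_add_distrib, Int.cast_sum, Int.cast_sum]
  refine sum_congr rfl fun l hl => ?_
  exact ov_add_ov (h k (mem_range.1 hk) l (mem_range.1 hl))

theorem sum_reflect_edge (G : E3 → E3 → ℤ) (p p' : ℕ → E3) (N : ℕ)
    (hp : ∀ k ≤ N, p' k = p (N - k)) :
    ∑ k ∈ range N, G (p' k) (p' (k + 1)) = ∑ k ∈ range N, G (p (k + 1)) (p k) := by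
  rw [← sum_range_reflect (fun k => G (p (k + 1)) (p k)) N]
  refine sum_congr rfl fun k hk => ?_
  have hk' := mem_range.1 hk
  rw [hp k hk'.le, hp (k + 1) hk']
  have e1 : N - (k + 1) + 1 = N - k := by omega
  have e2 : N - 1 - k = N - (k + 1) := by omega
  simp only [e2, e1]

theorem SS_reverse (F : E3 → E3 → E3 → E3 → ℤ) (p p' q : ℕ → E3) (N : ℕ)
    (hp : ∀ k ≤ N, p' k = p (N - k)) :
    SS F p' q N = SS (fun a b c d => F b a c d) p q N := by
  unfold SS
  exact sum_reflect_edge (fun a b => ∑ l ∈ range N, F a b (q l) (q (l + 1))) p p' N hp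

theorem SS_symm (F : E3 → E3 → E3 → E3 → ℤ) (p q : ℕ → E3) (N : ℕ) :
    SS F q p N = SS (fun a b c d => F c d a b) p q N := by
  unfold SS
  rw [sum_comm]

theorem SS_neg (F : E3 → E3 → E3 → E3 → ℤ) (p q : ℕ → E3) (N : ℕ) :
    SS (fun a b c d => - F a b c d) p q N = - SS F p q N := by
  unfold SS
  simp only [sum_neg_distrib]

theorem SS_cross_reverse (p p' q : ℕ → E3) (N : ℕ) (hp : ∀ k ≤ N, p' k = p (N - k)) :
    SS crossSign p' q N = - SS crossSign p q N := by
  rw [SS_reverse _ p p' q N hp, ← SS_neg]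
  exact SS_congr fun k _ l _ => crossSign_swap _ _ _ _

theorem SS_cross_symm (p q : ℕ → E3) (N : ℕ) :
    SS crossSign q p N = SS crossSign p q N := by
  rw [SS_symm]
  exact SS_congr fun k _ l _ => crossSign_symm _ _ _ _

theorem SS_ov_reverse {p p' q : ℕ → E3} {N : ℕ} (h : GenP p q N)
    (hp : ∀ k ≤ N, p' k = p (N - k)) :
    SS ov p' q N = SS ov p q N := by
  rw [SS_reverse _ p p' q N hp]
  exact SS_congr fun k hk l hl => ov_swap (h k hk l hl)

theorem SS_ov_reverse' {p q q' : ℕ → E3} {N : ℕ} (h : GenP p q N)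
    (hq : ∀ k ≤ N, q' k = q (N - k)) :
    SS ov p q' N = SS ov p q N := by
  rw [SS_symm ov q' p, SS_reverse _ q q' p N hq, SS_symm ov q p]
  exact SS_congr fun k hk l hl => ov_swap' (h l hl k hk)

theorem hh_reverse (p p' : ℕ → E3) (N : ℕ) (hp : ∀ k ≤ N, p' k = p (N - k)) (x : E3) :
    hh p' N x = - hh p N x := by
  unfold hh
  rw [sum_reflect_edge (fun a b => HH a b x) p p' N hp, ← sum_neg_distrib]
  exact sum_congr rfl fun k _ => HH_swap _ _ _

end Pool.Agent.H58.K9G1
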